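import Pool.Agent.Helper88.QT.St3
import Pool.Agent.Helper85.QT.St1

/-! Project QT, module CYC: classes of powers. -/

set_option autoImplicit false

open MeasureTheory Matrix Set Topology Filter
open scoped ENNReal ComplexConjugate

namespace Pool.Agent.Helper62.QT

open Pool.Agent.Helper88.QT Pool.Agent.Helper85.QT Pool.Agent.Helper86.QA
open Pool.Agent.Helper35.PM (tl hs len classes)

lemma sq_eq (A : Pool.Agent.Helper35.PM.SL) : ((A : Pool.Agent.Helper35.PM.Mat)) * (A : Pool.Agent.Helper35.PM.Mat) =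
    (A : Pool.Agent.Helper35.PM.Mat).trace • (A : Pool.Agent.Helper35.PM.Mat) - 1 := by
  have hd := A.det_coe
  rw [Matrix.det_fin_two] at hd
  ext i j
  fin_cases i <;> fin_cases j <;>
    simp only [Fin.zero_eta, Fin.mk_one, Matrix.mul_apply, Fin.sum_univ_two, Matrix.sub_apply,
      Matrix.smul_apply, smul_eq_mul, Matrix.trace_fin_two, Matrix.one_apply_eq, Matrix.one_apply_ne,
      ne_eq, zero_ne_one, one_ne_zero, not_false_eq_true] <;>
    first
    | linear_combination (-1 : ℂ) * hd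
    | ring

lemma sq_eq_off (A : Pool.Agent.Helper35.PM.SL) (n : ℕ) :
    ((A ^ (n + 2) : Pool.Agent.Helper35.PM.SL) : Pool.Agent.Helper35.PM.Mat).trace =
      (A : Pool.Agent.Helper35.PM.Mat).trace *
        ((A ^ (n + 1) : Pool.Agent.Helper35.PM.SL) : Pool.Agent.Helper35.PM.Mat).trace -
        ((A ^ n : Pool.Agent.Helper35.PM.SL) : Pool.Agent.Helper35.PM.Mat).trace := by
  have h1 : ((A ^ (n + 2) : Pool.Agent.Helper35.PM.SL) : Pool.Agent.Helper35.PM.Mat) =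
      (A : Pool.Agent.Helper35.PM.Mat).trace •
        ((A ^ (n + 1) : Pool.Agent.Helper35.PM.SL) : Pool.Agent.Helper35.PM.Mat) -
        ((A ^ n : Pool.Agent.Helper35.PM.SL) : Pool.Agent.Helper35.PM.Mat) := by
    rw [Matrix.SpecialLinearGroup.coe_pow, Matrix.SpecialLinearGroup.coe_pow,
      Matrix.SpecialLinearGroup.coe_pow, pow_add, pow_two, sq_eq, pow_succ, mul_sub, mul_one,
      Matrix.mul_smul]
  rw [h1, Matrix.trace_sub, Matrix.trace_smul, smul_eq_mul]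

lemma trace_pow (A : Pool.Agent.Helper35.PM.SL) (μ : ℂ) (hμ : μ ≠ 0)
    (h : (A : Pool.Agent.Helper35.PM.Mat).trace = μ + μ⁻¹) (n : ℕ) :
    ((A ^ n : Pool.Agent.Helper35.PM.SL) : Pool.Agent.Helper35.PM.Mat).trace = μ ^ n + (μ ^ n)⁻¹ ∧
    ((A ^ (n + 1) : Pool.Agent.Helper35.PM.SL) : Pool.Agent.Helper35.PM.Mat).trace =
      μ ^ (n + 1) + (μ ^ (n + 1))⁻¹ := by
  induction n with
  | zero =>
    constructor
    · rw [pow_zero, Matrix.SpecialLinearGroup.coe_one, Matrix.trace_one, Fintype.card_fin, pow_zero]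
      norm_num
    · rw [zero_add, pow_one, pow_one]
      exact h
  | succ n ih =>
    refine ⟨ih.2, ?_⟩
    have h1 := sq_eq_off A n
    rw [ih.1, ih.2, h] at h1
    rw [show n + 1 + 1 = n + 2 from rfl, h1]
    field_simp
    ring

lemma tl_pow (hHS2 : Pool.Agent.Helper35.PM.St_HS2) (A : Pool.Agent.Helper35.PM.SL) (n : ℕ) :
    tl (A ^ n) = n * tl A := by
  obtain ⟨μ, h1, h2, h3⟩ := hHS2.1 A
  have hμ : μ ≠ 0 := by
    rintro rfl
    simp at h2
    linarith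
  have htr : (A : Pool.Agent.Helper35.PM.Mat).trace = μ + μ⁻¹ := by
    field_simp
    linear_combination -h1
  have h4 := (trace_pow A μ hμ htr n).1
  have h5 : (μ ^ n) ^ 2 - ((A ^ n : Pool.Agent.Helper35.PM.SL) : Pool.Agent.Helper35.PM.Mat).trace *
      μ ^ n + 1 = 0 := by
    rw [h4]
    have : μ ^ n ≠ 0 := pow_ne_zero _ hμ
    field_simp
    ring
  rw [hHS2.2.1 _ _ h5, norm_pow, Real.log_pow, h3, abs_of_nonneg]
  · ring
  · exact mul_nonneg (Nat.cast_nonneg _) (Real.log_nonneg h2)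

lemma tl_inv (hHS2 : Pool.Agent.Helper35.PM.St_HS2) (A : Pool.Agent.Helper35.PM.SL) :
    tl A⁻¹ = tl A := by
  apply hHS2.2.2.2.2.1
  left
  rw [Matrix.SpecialLinearGroup.coe_inv, Matrix.adjugate_fin_two, Matrix.trace_fin_two_of,
    Matrix.trace_fin_two, add_comm]

lemma tl_zpow (hHS2 : Pool.Agent.Helper35.PM.St_HS2) (A : Pool.Agent.Helper35.PM.SL) (n : ℤ) :
    tl (A ^ n) = |(n : ℝ)| * tl A := by
  rcases Int.eq_nat_or_neg n with ⟨m, rfl | rfl⟩
  · rw [_root_.zpow_natCast, tl_pow hHS2, Int.cast_natCast, abs_of_nonneg (Nat.cast_nonneg _)]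
  · rw [_root_.zpow_neg, _root_.zpow_natCast, tl_inv hHS2, tl_pow hHS2, Int.cast_neg, abs_neg, Int.cast_natCast,
      abs_of_nonneg (Nat.cast_nonneg _)]

theorem hCYC (hHS2 : Pool.Agent.Helper35.PM.St_HS2) (hLN : Pool.Agent.Helper35.PM.St_LN) :
    Pool.Agent.Helper88.QT.StCYC := by
  intro Γ _ ρ α hα
  refine ⟨2 / tl (ρ α) + 1, fun T hT => ?_⟩
  obtain ⟨m, hm⟩ : ∃ m : ℤ, m = ⌊T / tl (ρ α)⌋ := ⟨_, rfl⟩
  have hm0 : 0 ≤ m := by
    rw [hm]
    exact Int.floor_nonneg.2 (by positivity)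
  have hsub : {x : ConjClasses Γ | x ∈ classes ρ T ∧ ∃ n : ℤ, x = ConjClasses.mk (α ^ n)} ⊆
      (fun n : ℤ => ConjClasses.mk (α ^ n)) '' (Finset.Icc (-m) m : Finset ℤ) := by
    rintro x ⟨hx, n, rfl⟩
    refine ⟨n, ?_, rfl⟩
    have h1 : len ρ (ConjClasses.mk (α ^ n)) ≤ T := hx
    rw [hLN, map_zpow, tl_zpow hHS2] at h1
    have h2 : |(n : ℝ)| ≤ T / tl (ρ α) := (le_div_iff₀ hα).2 h1
    have h3 : ((|n| : ℤ) : ℝ) ≤ T / tl (ρ α) := by
      rw [Int.cast_abs]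
      exact h2
    have h4 : |n| ≤ m := by
      rw [hm]
      exact Int.le_floor.2 h3
    rw [Finset.mem_coe, Finset.mem_Icc]
    exact abs_le.1 h4
  have hfin : ((fun n : ℤ => ConjClasses.mk (α ^ n)) '' (Finset.Icc (-m) m : Finset ℤ)).Finite :=
    (Finset.finite_toSet _).image _
  have h1 := Set.ncard_le_ncard hsub hfin
  have h2 := Set.ncard_image_le (f := fun n : ℤ => ConjClasses.mk (α ^ n))
    (Finset.finite_toSet (Finset.Icc (-m) m))
  rw [Set.ncard_coe_finset, Int.card_Icc] at h2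
  have h3 := h1.trans h2
  have h4 : (((m + 1 - -m).toNat : ℕ) : ℝ) = 2 * (m : ℝ) + 1 := by
    have : ((m + 1 - -m).toNat : ℤ) = 2 * m + 1 := by
      rw [Int.toNat_of_nonneg (by linarith)]
      ring
    exact_mod_cast congrArg (fun z : ℤ => (z : ℝ)) this
  have h5 : ({x : ConjClasses Γ | x ∈ classes ρ T ∧ ∃ n : ℤ,
      x = ConjClasses.mk (α ^ n)}.ncard : ℝ) ≤ 2 * (m : ℝ) + 1 := by
    rw [← h4]
    exact_mod_cast h3
  have h6 : (m : ℝ) ≤ T / tl (ρ α) := by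
    rw [hm]
    exact Int.floor_le _
  have h7 : (2 / tl (ρ α) + 1) * T = 2 * (T / tl (ρ α)) + T := by
    field_simp
  rw [h7]
  linarith

end Pool.Agent.Helper62.QT
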