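import Pool.Agent.Helper85.QT.St1

/-! Project QT, module SB4: the hull function is Lipschitz. -/

set_option autoImplicit false

namespace Pool.Agent.Helper62.QT

open Pool.Agent.Helper85.QT Pool.Agent.Helper86.QA
open MeasureTheory Matrix Set Topology
open scoped ENNReal ComplexConjugate

/-- real coordinates of a Hermitian matrix of determinant `-1` -/
lemma coords (H : Mat) (hH : H.IsHermitian) (hd : H.det = -1) : ∃ α b1 b2 δ : ℝ,
    (H 0 0).re = α ∧ α * δ - b1 ^ 2 - b2 ^ 2 = -1 ∧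
    ∀ ξ : ℂ, qf H ξ = α * (ξ.re ^ 2 + ξ.im ^ 2) + 2 * (ξ.re * b1 + ξ.im * b2) + δ := by
  have h00 := congrArg Complex.im (hH.apply 0 0)
  have h11 := congrArg Complex.im (hH.apply 1 1)
  have h10 := hH.apply 1 0
  simp only [Complex.star_def, Complex.conj_im] at h00 h11
  have i00 : (H 0 0).im = 0 := by linarith
  have i11 : (H 1 1).im = 0 := by linarith
  have h10r : (H 1 0).re = (H 0 1).re := by rw [← h10]; simp
  have h10i : (H 1 0).im = -(H 0 1).im := by rw [← h10]; simp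
  refine ⟨(H 0 0).re, (H 0 1).re, (H 0 1).im, (H 1 1).re, rfl, ?_, ?_⟩
  · rw [Matrix.det_fin_two] at hd
    have h := congrArg Complex.re hd
    simp only [Complex.sub_re, Complex.mul_re, Complex.neg_re, Complex.one_re, i00, i11, h10r,
      h10i] at h
    linarith
  · intro ξ
    unfold qf
    simp only [Complex.add_re, Complex.mul_re, Complex.mul_im, Complex.conj_re, Complex.conj_im,
      i00, h10r, h10i]
    ring

/-- monotonicity -/
lemma sqrt_lip (v w : ℝ) (h : v ≤ w) :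
    Real.sqrt (1 + v ^ 2) ≤ Real.sqrt (1 + w ^ 2) + (w - v) := by
  have h1 : 0 ≤ Real.sqrt (1 + w ^ 2) := Real.sqrt_nonneg _
  have h2 : Real.sqrt (1 + w ^ 2) ^ 2 = 1 + w ^ 2 := Real.sq_sqrt (by positivity)
  have h3 : -w ≤ Real.sqrt (1 + w ^ 2) := by
    apply Real.le_sqrt_of_sq_le
    nlinarith
  apply Real.sqrt_le_iff.2
  refine ⟨by linarith, ?_⟩
  nlinarith [mul_nonneg (sub_nonneg.2 h) (by linarith : (0 : ℝ) ≤ w + Real.sqrt (1 + w ^ 2))]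

lemma sqrt_lip' (v w : ℝ) (h : v ≤ w) :
    Real.sqrt (1 + w ^ 2) ≤ Real.sqrt (1 + v ^ 2) + (w - v) := by
  have := sqrt_lip (-w) (-v) (by linarith)
  simp only [neg_sq] at this
  linarith

lemma phi_mono (c : ℝ) (hc : 1 ≤ c) (v w : ℝ) (h : v ≤ w) :
    v * c + Real.sqrt (1 + v ^ 2) * Real.sqrt (c ^ 2 - 1) ≤
      w * c + Real.sqrt (1 + w ^ 2) * Real.sqrt (c ^ 2 - 1) := by
  have h1 := sqrt_lip v w h
  have h2 : 0 ≤ Real.sqrt (c ^ 2 - 1) := Real.sqrt_nonneg _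
  have h3 : Real.sqrt (c ^ 2 - 1) ≤ c := by
    apply Real.sqrt_le_iff.2
    constructor <;> nlinarith
  nlinarith [mul_le_mul_of_nonneg_right h1 h2, mul_le_mul_of_nonneg_left h3 (sub_nonneg.2 h)]

lemma psi_mono (c : ℝ) (hc : 1 ≤ c) (v w : ℝ) (h : v ≤ w) :
    v * c - Real.sqrt (1 + v ^ 2) * Real.sqrt (c ^ 2 - 1) ≤
      w * c - Real.sqrt (1 + w ^ 2) * Real.sqrt (c ^ 2 - 1) := by
  have h1 := sqrt_lip' v w h
  have h2 : 0 ≤ Real.sqrt (c ^ 2 - 1) := Real.sqrt_nonneg _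
  have h3 : Real.sqrt (c ^ 2 - 1) ≤ c := by
    apply Real.sqrt_le_iff.2
    constructor <;> nlinarith
  nlinarith [mul_le_mul_of_nonneg_right h1 h2, mul_le_mul_of_nonneg_left h3 (sub_nonneg.2 h)]

lemma psi_phi (c : ℝ) (hc : 1 ≤ c) (u v : ℝ)
    (h : v ≤ u * c + Real.sqrt (1 + u ^ 2) * Real.sqrt (c ^ 2 - 1)) :
    v * c - Real.sqrt (1 + v ^ 2) * Real.sqrt (c ^ 2 - 1) ≤ u := by
  refine (psi_mono c hc _ _ h).trans ?_
  obtain ⟨R, hR⟩ : ∃ R, R = Real.sqrt (1 + u ^ 2) := ⟨_, rfl⟩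
  obtain ⟨T, hT⟩ : ∃ T, T = Real.sqrt (c ^ 2 - 1) := ⟨_, rfl⟩
  have hR2 : R ^ 2 = 1 + u ^ 2 := by rw [hR]; exact Real.sq_sqrt (by positivity)
  have hT2 : T ^ 2 = c ^ 2 - 1 := by rw [hT]; exact Real.sq_sqrt (by nlinarith)
  have hR0 : 0 ≤ R := by rw [hR]; exact Real.sqrt_nonneg _
  have hT0 : 0 ≤ T := by rw [hT]; exact Real.sqrt_nonneg _
  have hTc : T ≤ c := by nlinarith
  have hRu : -R ≤ u := by nlinarith
  rw [← hR, ← hT]
  have h1 : Real.sqrt (1 + (u * c + R * T) ^ 2) = c * R + T * u := by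
    have h2 : 1 + (u * c + R * T) ^ 2 = (c * R + T * u) ^ 2 := by
      linear_combination (T ^ 2 - c ^ 2) * hR2 + hT2
    rw [h2]
    apply Real.sqrt_sq
    nlinarith [mul_nonneg hT0 (by linarith : 0 ≤ R + u), mul_nonneg hR0 (sub_nonneg.2 hTc)]
  rw [h1]
  apply le_of_eq
  linear_combination (-u) * hT2

/-- the inequality for one form, in coordinates -/
lemma one_form (α b1 b2 δ z1 z2 w1 w2 t s : ℝ) (ht : 0 < t) (hs : 0 < s)
    (hd : α * δ - b1 ^ 2 - b2 ^ 2 = -1) (v u c : ℝ)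
    (hv : 2 * t * v = -((α * (z1 ^ 2 + z2 ^ 2) + 2 * (z1 * b1 + z2 * b2) + δ) + α * t ^ 2))
    (hu : 2 * s * u = -((α * (w1 ^ 2 + w2 ^ 2) + 2 * (w1 * b1 + w2 * b2) + δ) + α * s ^ 2))
    (hc : c = ((z1 - w1) ^ 2 + (z2 - w2) ^ 2 + t ^ 2 + s ^ 2) / (2 * t * s)) :
    u ≤ v * c + Real.sqrt (1 + v ^ 2) * Real.sqrt (c ^ 2 - 1) := by
  obtain ⟨q, hq⟩ : ∃ q, q = α * (z1 ^ 2 + z2 ^ 2) + 2 * (z1 * b1 + z2 * b2) + δ := ⟨_, rfl⟩
  obtain ⟨B1, hB1⟩ : ∃ x, x = α * z1 + b1 := ⟨_, rfl⟩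
  obtain ⟨B2, hB2⟩ : ∃ x, x = α * z2 + b2 := ⟨_, rfl⟩
  obtain ⟨Q1, hQ1⟩ : ∃ x, x = (w1 - z1) / s := ⟨_, rfl⟩
  obtain ⟨Q2, hQ2⟩ : ∃ x, x = (w2 - z2) / s := ⟨_, rfl⟩
  obtain ⟨p, hp⟩ : ∃ x, x = (α * t ^ 2 - q) / (2 * t) := ⟨_, rfl⟩
  obtain ⟨P, hP⟩ : ∃ x, x = ((w1 - z1) ^ 2 + (w2 - z2) ^ 2 + s ^ 2 - t ^ 2) / (2 * t * s) :=
    ⟨_, rfl⟩
  have hv' : v = -(q + α * t ^ 2) / (2 * t) := by
    rw [← hq] at hv
    field_simp
    linarith
  have hu' : u = -(q + 2 * (B1 * (w1 - z1) + B2 * (w2 - z2)) +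
      α * ((w1 - z1) ^ 2 + (w2 - z2) ^ 2) + α * s ^ 2) / (2 * s) := by
    have : q + 2 * (B1 * (w1 - z1) + B2 * (w2 - z2)) + α * ((w1 - z1) ^ 2 + (w2 - z2) ^ 2) =
        α * (w1 ^ 2 + w2 ^ 2) + 2 * (w1 * b1 + w2 * b2) + δ := by
      rw [hq, hB1, hB2]; ring
    rw [this]
    field_simp
    linarith
  have hdet : α * q = B1 ^ 2 + B2 ^ 2 - 1 := by
    rw [hq, hB1, hB2]
    linear_combination hd
  have e1 : u = v * c - (p * P + (B1 * Q1 + B2 * Q2)) := by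
    rw [hu', hv', hc, hp, hP, hQ1, hQ2]
    field_simp
    ring
  have e2 : 1 + v ^ 2 = p ^ 2 + B1 ^ 2 + B2 ^ 2 := by
    have : v ^ 2 - p ^ 2 = α * q := by
      rw [hv', hp]
      field_simp
      ring
    linarith
  have e3 : c ^ 2 - 1 = P ^ 2 + Q1 ^ 2 + Q2 ^ 2 := by
    rw [hc, hP, hQ1, hQ2]
    field_simp
    ring
  have e4 : (p * P + (B1 * Q1 + B2 * Q2)) ^ 2 ≤ (1 + v ^ 2) * (c ^ 2 - 1) := by
    rw [e2, e3]
    nlinarith [sq_nonneg (p * Q1 - B1 * P), sq_nonneg (p * Q2 - B2 * P),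
      sq_nonneg (B1 * Q2 - B2 * Q1)]
  have e5 := Real.abs_le_sqrt e4
  rw [Real.sqrt_mul (by positivity)] at e5
  rw [e1]
  have e6 := (abs_le.1 e5).1
  linarith

theorem hSB4 (hACT : Pool.Agent.Helper86.QA.StACT) (hCHI : Pool.Agent.Helper86.QA.StCHI)
    (hSB0 : Pool.Agent.Helper85.QT.StSB0) (hSB1 : Pool.Agent.Helper85.QT.StSB1) :
    Pool.Agent.Helper85.QT.StSB4 := by
  intro Γ _ ρ A B hKD
  obtain ⟨-, -, hne, -, -, hsup⟩ := hSB1 Γ ρ A B hKD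
  obtain ⟨H0, hH0⟩ := hne
  have hone : ∀ H, AdF A B H → ∀ x ∈ up, ∀ y ∈ up,
      hf H y ≤ hf H x * ch x y + Real.sqrt (1 + hf H x ^ 2) * Real.sqrt (ch x y ^ 2 - 1) := by
    intro H hH x hx y hy
    obtain ⟨α, b1, b2, δ, h0, hd, hq⟩ := coords H hH.1 hH.2.1
    have h1 := hSB0.1 H x hH.1 hx
    have h2 := hSB0.1 H y hH.1 hy
    rw [h0, hq] at h1 h2
    refine one_form α b1 b2 δ x.1.re x.1.im y.1.re y.1.im x.2 y.2 hx hy hd _ _ _ h1 h2 ?_
    unfold ch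
    rw [← Complex.normSq_eq_norm_sq, Complex.normSq_apply]
    simp only [Complex.sub_re, Complex.sub_im]
    ring
  have hA : ∀ x ∈ up, ∀ y ∈ up, sb A B y ≤ sb A B x * ch x y +
      Real.sqrt (1 + sb A B x ^ 2) * Real.sqrt (ch x y ^ 2 - 1) := by
    intro x hx y hy
    have hc : 1 ≤ ch x y := (hCHI.1 x hx y hy).1
    refine csSup_le ⟨_, H0, hH0, rfl⟩ ?_
    rintro _ ⟨H, hH, rfl⟩
    exact (hone H hH x hx y hy).trans (phi_mono _ hc _ _ ((hsup x hx).2.1 H hH))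
  have hB : ∀ x ∈ up, ∀ y ∈ up, sb A B x * ch x y -
      Real.sqrt (1 + sb A B x ^ 2) * Real.sqrt (ch x y ^ 2 - 1) ≤ sb A B y := by
    intro x hx y hy
    have hc : 1 ≤ ch x y := (hCHI.1 x hx y hy).1
    have h1 := hA y hy x hx
    rw [← (hCHI.1 x hx y hy).2.1] at h1
    exact psi_phi _ hc _ _ h1
  have hC : ContinuousOn (sb A B) up := by
    intro x hx
    apply ContinuousAt.continuousWithinAt
    have hx2 : x.2 ≠ 0 := (show (0 : ℝ) < x.2 from hx).ne'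
    have hch : ContinuousAt (fun y => ch x y) x := by
      unfold ch
      apply ContinuousAt.div
      · fun_prop
      · fun_prop
      · exact mul_ne_zero (mul_ne_zero two_ne_zero hx2) hx2
    have hxx : ch x x = 1 := (hCHI.1 x hx x hx).2.2.1
    have g1 : ContinuousAt (fun y => sb A B x * ch x y +
        Real.sqrt (1 + sb A B x ^ 2) * Real.sqrt (ch x y ^ 2 - 1)) x := by
      fun_prop
    have g2 : ContinuousAt (fun y => sb A B x * ch x y -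
        Real.sqrt (1 + sb A B x ^ 2) * Real.sqrt (ch x y ^ 2 - 1)) x := by
      fun_prop
    have v1 : sb A B x * ch x x +
        Real.sqrt (1 + sb A B x ^ 2) * Real.sqrt (ch x x ^ 2 - 1) = sb A B x := by
      rw [hxx]; simp
    have v2 : sb A B x * ch x x -
        Real.sqrt (1 + sb A B x ^ 2) * Real.sqrt (ch x x ^ 2 - 1) = sb A B x := by
      rw [hxx]; simp
    have t1 := g1.tendsto
    have t2 := g2.tendsto
    simp only [v1] at t1
    simp only [v2] at t2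
    have hup : ∀ᶠ y in 𝓝 x, y ∈ up := up_open.mem_nhds hx
    refine tendsto_of_tendsto_of_tendsto_of_le_of_le' t2 t1 ?_ ?_
    · filter_upwards [hup] with y hy using hB x hx y hy
    · filter_upwards [hup] with y hy using hA x hx y hy
  refine ⟨hA, ?_, hC, ?_⟩
  · intro S hS x hx y hy hc2 hxS
    have hc : 1 ≤ ch x y := (hCHI.1 x hx y hy).1
    refine (hA x hx y hy).trans ((phi_mono _ hc _ _ hxS).trans ?_)
    have h1 : Real.sqrt (ch x y ^ 2 - 1) ≤ 2 := by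
      apply Real.sqrt_le_iff.2
      constructor
      · norm_num
      · nlinarith
    have h2 : Real.sqrt (1 + S ^ 2) ≤ 1 + S := by
      apply Real.sqrt_le_iff.2
      constructor
      · linarith
      · nlinarith
    have h3 : 0 ≤ Real.sqrt (1 + S ^ 2) := Real.sqrt_nonneg _
    have h4 : 0 ≤ Real.sqrt (ch x y ^ 2 - 1) := Real.sqrt_nonneg _
    nlinarith [mul_le_mul h2 h1 h4 (by linarith : (0 : ℝ) ≤ 1 + S), mul_le_mul_of_nonneg_left hc2 hS]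
  · intro S
    have h1 : IsOpen (up ∩ sb A B ⁻¹' Ioi S) := hC.isOpen_inter_preimage up_open isOpen_Ioi
    have h2 : {x : Pt | x ∈ up ∧ sb A B x ≤ S} = up \ (up ∩ sb A B ⁻¹' Ioi S) := by
      ext x
      simp only [mem_ofPred_eq, mem_sdiff, mem_inter_iff, mem_preimage, mem_Ioi, not_and, not_lt]
      tauto
    rw [h2]
    exact up_meas.diff h1.measurableSet

end Pool.Agent.Helper62.QT
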